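import Pool.Agent.N542.PT.Main
import Pool.Agent.N542.PT.Loc
import Pool.Agent.N542.PB.GenPoly

set_option autoImplicit false

/-!
# Record prime gaps around polynomials in the integral parts of smooth functions of a prime number

Let `F_1, …, F_m` be nonconstant polynomials in `n` variables with integer coefficients which are BALANCED: modulo the
large primes `q` every value of `F_j` outside a fixed finite set of integers is taken `q ^ (n-1) (1 + O (q ^ (-δ)))`
times, and every pair of such values of `F_i` and `F_j`, `i ≠ j`, `O (q ^ (n-2))` times. (By the theorem of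
Lang and Weil the first condition means that `F_j - r` is absolutely irreducible for the `r` which are not
excepted.) We show that at MANY points whose coordinates are the integral parts of smooth functions of ONE prime
number the values of all the `F_j` are at the same time in the middle of record gaps between primes.

Precisely, let `f_1, …, f_r` be smoothly varying functions (Bingham, Goldie, Teugels) with real indices
`c_j ∉ {0, 1, 2, …}`, for instance `t ^ (c_j)` plus a combination of lower real powers, let `u_j` be real numbers,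
`v_j = c_j + u_j`. The `n` coordinates are `x_k(p) = α_{φ(k)} f_{φ(k)}(p + σ(k)) + P_k(p)`: every function may be
used at fewer than `v_j + 1` different places `p + σ(k)`, provided that the `v_j` are incongruent modulo one; if
every function is used at most once, it is enough that the `v_j` are distinct (and positive). Let `b` be prime to
`d`, `D` a natural number and `0 < ε ≤ 1 / 2`. There are `κ, δ > 0` such that for all large `Z`, for ALL real `α_j`
with `Z ^ (u_j - δ) ≤ |α_j| ≤ Z ^ (u_j + δ)` and ALL real polynomials `P_k` of degree at most `D`, at least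
`Z ^ (1 - ε)` primes `p ≡ b (mod d)` of `(Z, (1 + ε) Z]` are such that for every `j` every integer at distance at
most `κ log Z (log₂ Z)² log₄ Z / (log₃ Z)²` of `F_j(⌊x_1(p)⌋, …, ⌊x_n(p)⌋)` has a prime factor `≤ Z ^ ε`. So no prime
number `> Z ^ ε` is so close to any of the values.

Two classes of balanced families are given below (both from the starting library, helper837, where the variables
run over the integers of boxes): finite families of polynomials of weight one (`balanced_weight`), as all the
monomials with coprime exponents `≤ k` together, the determinant of a matrix together with its leading principal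
minors, bilinear forms; and sums of three nonconstant polynomials in disjoint sets of variables
(`balanced_three`). So there are record gaps around `⌊√p⌋ ⌊p ^ π⌋ + ⌊p ^ e⌋`, around
`⌊p ^ a⌋ ^ k + ⌊p ^ b⌋ ^ l + ⌊p ^ c⌋ ^ m`, around the determinants of matrices with entries `⌊p ^ (a_ij)⌋`, around
`⌊p ^ (5/2)⌋ ⌊(p + 1) ^ (5/2)⌋ ⌊(p + 2) ^ (5/2)⌋` and so on.

The case of the coordinate functions `F_k = x_k` is contained in `MP_711652_nt.SeveralSmoothFunctions` and
`MP_c853c5_nt.NeighbouringValues`.

Proof (`Pool.Agent.N542.PT`). The record covering sieve for polynomials in several variables (helper837, after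
helper256 and helper378) is carried over from boxes to arbitrary finite families of integer vectors which are well
distributed modulo the integers up to a small power of `Z`; the exponential sums over primes of
`MP_c853c5_nt.NeighbouringValues` and Erdős-Turán-Koksma show this for the vectors of integral parts; the number
of the primes `p` is obtained by applying the criterion to the family of all the `p` which are not good.
-/

namespace Pool.Agent.Results.MP_7b323f_nt.PolynomialsAtSmoothValues

open Finset Filter Topology MvPolynomial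

/-- the record function `log x (log₂ x)² log₄ x / (log₃ x)²` -/
noncomputable def R (x : ℝ) : ℝ :=
  Real.log x * (Real.log (Real.log x)) ^ 2 * Real.log (Real.log (Real.log (Real.log x))) /
    (Real.log (Real.log (Real.log x))) ^ 2

/-- `f` is smoothly varying with index `c`: it is positive and has derivatives of every order near
infinity, and `t ^ j f⁽ʲ⁾(t) / f(t)` tends to `c (c - 1) ⋯ (c - j + 1)` for every `j`. -/
def SmoothlyVarying (c : ℝ) (f : ℝ → ℝ) : Prop :=
  (∀ᶠ t in atTop, 0 < f t) ∧
  (∀ j : ℕ, ∀ᶠ t in atTop, DifferentiableAt ℝ (iteratedDeriv j f) t) ∧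
  ∀ j : ℕ, Tendsto (fun t => t ^ j * iteratedDeriv j f t / f t) atTop
    (𝓝 (∏ i ∈ range j, (c - i)))

/-- Modulo the large primes `p` the values of `F j` outside the finite set `E j` of integers are taken with the
expected frequency up to a factor `1 + O(p ^ (-δ))`, and a pair of such values of `F i` and `F j`, `i ≠ j`, with the
expected frequency up to a constant factor. -/
def Balanced {ι : Type} {n : ℕ} (F : ι → MvPolynomial (Fin n) ℤ) (E : ι → Finset ℤ) : Prop :=
  ∃ (B : ℕ) (C δ : ℝ), 0 < δ ∧ ∀ p : ℕ, p.Prime → B < p →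
    (∀ j, ∀ r : ZMod p, (∀ v ∈ E j, r ≠ (v : ZMod p)) →
      |(p : ℝ) * (Nat.card {x : Fin n → ZMod p // aeval x (F j) = r} : ℝ) - (p : ℝ) ^ n| ≤
        C * (p : ℝ) ^ n * (p : ℝ) ^ (-δ)) ∧
    ∀ i j, i ≠ j → ∀ r s : ZMod p, (∀ v ∈ E i, r ≠ (v : ZMod p)) → (∀ v ∈ E j, s ≠ (v : ZMod p)) →
      (p : ℝ) ^ 2 * (Nat.card {x : Fin n → ZMod p // aeval x (F i) = r ∧ aeval x (F j) = s} : ℝ) ≤
        C * (p : ℝ) ^ n

/-- The main theorem. -/
theorem result {ι : Type} [Fintype ι] {r n : ℕ} (hn : 1 ≤ n)
    (F : ι → MvPolynomial (Fin n) ℤ) (E : ι → Finset ℤ) (hF : ∀ j, ∀ k : ℤ, F j ≠ MvPolynomial.C k)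
    (hB : Balanced F E)
    (c u : Fin r → ℝ) (f : Fin r → ℝ → ℝ) (hcn : ∀ j, ∀ n : ℕ, c j ≠ n)
    (hf : ∀ j, SmoothlyVarying (c j) (f j))
    (φ : Fin n → Fin r) (σ : Fin n → ℤ) (hφσ : ∀ k l, φ k = φ l → σ k = σ l → k = l)
    (hφ : ∀ j, ((univ.filter (fun k => φ k = j)).card : ℝ) < c j + u j + 1)
    (hv : (∀ i j, i ≠ j → ∀ m : ℤ, (c i + u i) - (c j + u j) ≠ m) ∨
      (Function.Injective φ ∧ ∀ i j, i ≠ j → c i + u i ≠ c j + u j))
    (D d b : ℕ) (hd : 0 < d) (hb : b.Coprime d) (ε : ℝ) (hε : 0 < ε) (hε1 : ε ≤ 1 / 2) :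
    ∃ κ δ : ℝ, 0 < κ ∧ 0 < δ ∧ ∀ᶠ Z : ℝ in atTop, ∀ (α : Fin r → ℝ) (P : Fin n → Polynomial ℝ),
      (∀ j, Z ^ (u j - δ) ≤ |α j| ∧ |α j| ≤ Z ^ (u j + δ)) → (∀ k, (P k).natDegree ≤ D) →
      ∃ G : Finset ℕ, Z ^ (1 - ε) ≤ (G.card : ℝ) ∧ ∀ p ∈ G, p.Prime ∧ p ≡ b [MOD d] ∧
        Z < p ∧ (p : ℝ) ≤ (1 + ε) * Z ∧
        ∀ j, ∀ m : ℤ, |(m : ℝ) - (eval (fun k =>
            ⌊α (φ k) * f (φ k) ((p : ℝ) + σ k) + (P k).eval (p : ℝ)⌋) (F j) : ℤ)| ≤ κ * R Z →
          ∃ q : ℕ, q.Prime ∧ (q : ℝ) ≤ Z ^ ε ∧ (q : ℤ) ∣ m := by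
  have hSV : ∀ j, Pool.Agent.N542.PP.SV (c j) (fun k => iteratedDeriv k (f j)) := by
    intro j
    refine ⟨?_, ?_, ?_⟩
    · simpa only [iteratedDeriv_zero] using (hf j).1
    · intro k
      filter_upwards [(hf j).2.1 k] with t ht
      rw [iteratedDeriv_succ]
      exact ht.hasDerivAt
    · intro k
      have h1 := (hf j).2.2 k
      rw [Pool.Agent.N542.PP.fall]
      simpa only [iteratedDeriv_zero] using h1
  have h := Pool.Agent.N542.PT.transfer hn c u (fun j k => iteratedDeriv k (f j)) hSV hcn φ σ hφσ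
    hφ hv F (Pool.Agent.N542.PT.crit_balanced F E hF hB) D d b hd hb ε hε hε1
  simp only [iteratedDeriv_zero] at h
  exact h

/-- Families of polynomials of weight one are balanced: `F j` has weight one for suitable integer weights of
the variables, and for `i ≠ j` there are weights for which `F i` is homogeneous of weight `≠ 0` and `F j` is
homogeneous of weight `0`. -/
theorem balanced_weight {ι : Type} [Fintype ι] {n : ℕ} (F : ι → MvPolynomial (Fin n) ℤ)
    (hF0 : ∀ j, F j ≠ 0)
    (hw : ∀ j, ∃ w : Fin n → ℤ, ∀ e ∈ (F j).support, ∑ i, w i * (e i : ℤ) = 1)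
    (hpair : ∀ i j, i ≠ j → ∃ w : Fin n → ℤ, ∃ D : ℤ, D ≠ 0 ∧
      (∀ e ∈ (F i).support, ∑ l, w l * (e l : ℤ) = D) ∧ ∀ e ∈ (F j).support, ∑ l, w l * (e l : ℤ) = 0) :
    Balanced F (fun _ => {0}) ∧ ∀ j, ∀ k : ℤ, F j ≠ MvPolynomial.C k :=
  Pool.Agent.N542.PT.balanced_weight F hF0 hw hpair

/-- Sums of three nonconstant polynomials in disjoint sets of variables are balanced. -/
theorem balanced_three {a b c : ℕ} (A : MvPolynomial (Fin a) ℤ) (B : MvPolynomial (Fin b) ℤ)
    (C : MvPolynomial (Fin c) ℤ) (hA : ∀ k, A ≠ MvPolynomial.C k) (hB : ∀ k, B ≠ MvPolynomial.C k)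
    (hC : ∀ k, C ≠ MvPolynomial.C k) :
    Balanced (fun _ : Unit => rename (Fin.castAdd (b + c)) A +
        rename (fun i => Fin.natAdd a (Fin.castAdd c i)) B +
        rename (fun i => Fin.natAdd a (Fin.natAdd b i)) C) (fun _ => ∅) ∧
      ∀ k : ℤ, rename (Fin.castAdd (b + c)) A + rename (fun i => Fin.natAdd a (Fin.castAdd c i)) B +
        rename (fun i => Fin.natAdd a (Fin.natAdd b i)) C ≠ MvPolynomial.C k :=
  Pool.Agent.N542.PT.balanced_three A B C hA hB hC

/-- `t ^ c` plus a combination of lower real powers is smoothly varying with index `c`. -/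
theorem smoothlyVarying_genPoly (c : ℝ) (n : ℕ) (a b : Fin n → ℝ) (hb : ∀ i, b i < c) :
    SmoothlyVarying c (fun t => t ^ c + ∑ i, a i * t ^ b i) :=
  Pool.Agent.N542.PB.genPoly_sv c n a b hb

end Pool.Agent.Results.MP_7b323f_nt.PolynomialsAtSmoothValues
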