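import Pool.Agent.N699.RC.Main

/-!
# The exponent two for the prime-free translates of `H` random positions

The interval `(x, x + H]` is replaced by the `H` integers `x + v_1, ..., x + v_H`, where `v_1, ..., v_H` are independent,
uniform in arbitrary intervals of length at least `N / log ^ A N` in `[0, B N]`.  The primes are the actual primes.  For
almost all the vectors `v` the number of the `x ≤ N` such that none of the `x + v_i` is a prime is
`N exp (- (1 + o(1)) H / log N)` for all `H ≤ log ^ 2 N / (log log N) ^ 3`, and there is no such `x ≤ N` if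
`H ≥ (1 + ε) log ^ 2 N`: the threshold for the existence of a prime-free translate is `(log N) ^ (2 + o(1))`.
-/

set_option autoImplicit false

namespace Pool.Agent.Results.MP_7b323f_nt.RandomPositions

open Finset

/-- The integers `1 ≤ x ≤ N` such that none of the `H` integers `x + v_1, ..., x + v_H` is a prime. -/
def primeFree {H : ℕ} (N : ℕ) (v : Fin H → ℕ) : Finset ℕ := (Icc 1 N).filter fun x => ∀ i, ¬ (x + v i).Prime

/-- The vectors `(v_1, ..., v_H)` of integers with `c_i < v_i ≤ c_i + M_i`. -/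
def vectors {H : ℕ} (c M : Fin H → ℕ) : Finset (Fin H → ℕ) := Fintype.piFinset fun i => Icc (c i + 1) (c i + M i)

lemma bridge {H : ℕ} (N : ℕ) (v : Fin H → ℕ) : Pool.Agent.N699.RC.Z N v = ((primeFree N v).card : ℝ) := by
  unfold Pool.Agent.N699.RC.Z primeFree
  have h1 : ∀ x ∈ Icc 1 N, ∏ i, (1 - Pool.Agent.N699.RC.pr (x + v i)) = if ∀ i, ¬ (x + v i).Prime then (1 : ℝ) else 0 := by
    intro x _
    split_ifs with h
    · apply prod_eq_one
      intro i _
      unfold Pool.Agent.N699.RC.pr
      rw [if_neg (h i), sub_zero]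
    · push Not at h
      obtain ⟨i, hi⟩ := h
      apply prod_eq_zero (mem_univ i)
      unfold Pool.Agent.N699.RC.pr
      rw [if_pos hi, sub_self]
  rw [sum_congr rfl h1, ← sum_filter, sum_const, nsmul_eq_mul, mul_one]

open Classical in
lemma count {H : ℕ} (c M : Fin H → ℕ) (P : (Fin H → ℕ) → Prop) (δ : ℝ)
    (h : ∑ v ∈ Fintype.piFinset (Pool.Agent.N699.RC.Om c M), (if P v then 0 else ∏ i, Pool.Agent.N699.RC.pm M i (v i)) ≤ δ) :
    (((vectors c M).filter fun v => ¬ P v).card : ℝ) ≤ δ * ((vectors c M).card : ℝ) := by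
  have h1 : ∑ v ∈ Fintype.piFinset (Pool.Agent.N699.RC.Om c M), (if P v then 0 else ∏ i, Pool.Agent.N699.RC.pm M i (v i)) =
      (((vectors c M).filter fun v => ¬ P v).card : ℝ) / ((vectors c M).card : ℝ) := by
    have e1 : ∀ v ∈ Fintype.piFinset (Pool.Agent.N699.RC.Om c M), (if P v then 0 else ∏ i, Pool.Agent.N699.RC.pm M i (v i)) =
        if ¬ P v then 1 / ((vectors c M).card : ℝ) else 0 := by
      intro v _
      have e2 : ∏ i, Pool.Agent.N699.RC.pm M i (v i) = 1 / ((vectors c M).card : ℝ) := by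
        unfold Pool.Agent.N699.RC.pm vectors
        rw [Fintype.card_piFinset, prod_div_distrib, prod_const_one]
        congr 1
        push_cast
        apply prod_congr rfl
        intro i _
        rw [Nat.card_Icc, show c i + M i + 1 - (c i + 1) = M i by omega]
      by_cases hP : P v
      · rw [if_pos hP, if_neg (not_not.2 hP)]
      · rw [if_neg hP, if_pos hP, e2]
    rw [sum_congr rfl e1, ← sum_filter, sum_const, nsmul_eq_mul, mul_one_div]
    rfl
  rw [h1] at h
  rcases Nat.eq_zero_or_pos (vectors c M).card with h0 | h0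
  · have h4 : ((vectors c M).filter fun v => ¬ P v).card = 0 := by
      have := card_filter_le (vectors c M) (fun v => ¬ P v)
      omega
    rw [h4, h0, Nat.cast_zero, mul_zero]
  · have h0r : (0 : ℝ) < ((vectors c M).card : ℝ) := by exact_mod_cast h0
    rw [div_le_iff₀ h0r] at h
    exact h

open Classical in
/-- Let `A`, `B` and `0 < ε ≤ 1` be fixed. For all large `N`, all `H` and all intervals `(c_i, c_i + M_i]` (`i = 1, ..., H`)
with `M_i ≥ N / log ^ A N` and `c_i + M_i ≤ B N`:

(1) if `H ≥ (1 + ε) log ^ 2 N`, then, with the exception of a proportion of at most `N ^ (- ε / 2)` of the vectors `v`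
with `c_i < v_i ≤ c_i + M_i`, for every `x ≤ N` at least one of `x + v_1, ..., x + v_H` is a prime;

(2) if `H ≤ log ^ 2 N / (log log N) ^ 3`, then, with the exception of a proportion of at most `ε` of the vectors `v`, the
number of the `x ≤ N` such that none of `x + v_1, ..., x + v_H` is a prime is at least
`(1 - ε) N exp (- (1 + ε) H / log N)` and at most `(1 + ε) N exp (- (1 - ε) H / log N)`. -/
theorem result (A B : ℕ) (ε : ℝ) (hε : 0 < ε) (hε1 : ε ≤ 1) : ∃ N₀ : ℕ, ∀ N H : ℕ, N₀ ≤ N → ∀ c M : Fin H → ℕ,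
    (∀ i, (N : ℝ) ≤ Real.log N ^ A * M i ∧ c i + M i ≤ B * N) →
    ((1 + ε) * Real.log N ^ 2 ≤ H →
      (((vectors c M).filter fun v => (primeFree N v).Nonempty).card : ℝ) ≤ (N : ℝ) ^ (-(ε / 2)) * ((vectors c M).card : ℝ)) ∧
    (H * Real.log (Real.log N) ^ 3 ≤ Real.log N ^ 2 →
      (((vectors c M).filter fun v => ¬ ((1 - ε) * (N * Real.exp (-((1 + ε) * (H / Real.log N)))) ≤ ((primeFree N v).card : ℝ) ∧
        ((primeFree N v).card : ℝ) ≤ (1 + ε) * (N * Real.exp (-((1 - ε) * (H / Real.log N)))))).card : ℝ) ≤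
      ε * ((vectors c M).card : ℝ)) := by
  obtain ⟨N0, h⟩ := Pool.Agent.N699.RC.runs A B ε hε hε1
  refine ⟨N0 + 1, fun N H hN c M hcM => ?_⟩
  obtain ⟨h1, h2⟩ := h N (by omega) H c M hcM
  have hN0 : (0 : ℝ) < N := by exact_mod_cast (by omega : 0 < N)
  constructor
  · intro hH
    have h3 := count c M (fun v => Pool.Agent.N699.RC.Z N v = 0) _ (h1 hH)
    have h4 : Real.exp (-(ε / 2 * Real.log N)) = (N : ℝ) ^ (-(ε / 2)) := by
      rw [Real.rpow_def_of_pos hN0]
      congr 1
      ring
    rw [h4] at h3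
    refine le_trans (le_of_eq ?_) h3
    congr 2
    apply filter_congr
    intro v _
    rw [bridge, Nat.cast_eq_zero, card_eq_zero, nonempty_iff_ne_empty]
  · intro hH
    have h3 := count c M (fun v => (1 - ε) * (N * Real.exp (-((1 + ε) * (H / Real.log N)))) ≤ Pool.Agent.N699.RC.Z N v ∧
        Pool.Agent.N699.RC.Z N v ≤ (1 + ε) * (N * Real.exp (-((1 - ε) * (H / Real.log N))))) ε (by convert h2 hH)
    simp only [bridge] at h3
    exact h3

end Pool.Agent.Results.MP_7b323f_nt.RandomPositions
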