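import Mathlib
import Pool.Agent.N740.HK.Lim
import Pool.Agent.N740.HK.Sch
import Pool.Agent.N853.SM.D

/-!
# The growth exponent of the maximal gaps in all adapted random models of the primes

The integers are decided one after the other, and the conditional probability of choosing `n + 1`,
given the decisions up to `n`, lies between `(log n) ^ (-b - o(1))` and `(log n) ^ (-a + o(1))`,
almost surely.  Nothing else is assumed: no independence, no asymptotic formula for the density.
Then the maximal gap up to `x` lies between `(log x) ^ (1 + a - o(1))` and `(log x) ^ (1 + b + o(1))`.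
For the density `(log n) ^ (-1 + o(1))` this is the exponent `2` of Maynard's question.
-/

set_option autoImplicit false

open MeasureTheory Filter Set ProbabilityTheory
open scoped Topology

namespace Pool.Agent.Results.MP_7b323f_nt.SequentialModels

variable {Ω : Type}

/-- `A n` is the event that `n` is chosen.  The events are adapted to the filtration `ℱ` and almost
surely, for every `δ > 0`, the conditional probability of `A (n + 1)` given `ℱ n` is between
`(log n) ^ (-b - δ)` and `(log n) ^ (-a + δ)` for all large `n`. -/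
def ExponentModel [m : MeasurableSpace Ω] (μ : Measure Ω) (ℱ : Filtration ℕ m) (A : ℕ → Set Ω)
    (a b : ℝ) : Prop :=
  (∀ n, MeasurableSet[ℱ n] (A n)) ∧
  ∀ᵐ ω ∂μ, ∀ δ : ℝ, 0 < δ → ∀ᶠ n : ℕ in atTop,
    Real.log n ^ (-b - δ) ≤ (μ[(A (n + 1)).indicator (fun _ => (1 : ℝ)) | ℱ n]) ω ∧
    (μ[(A (n + 1)).indicator (fun _ => (1 : ℝ)) | ℱ n]) ω ≤ Real.log n ^ (-a + δ)

/-- `A n` is the event that `n` is chosen.  The events are adapted to the filtration `ℱ` and the
conditional probability of `A (n + 1)` given `ℱ n`, times `log n`, tends to `1` almost surely. -/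
def SequentialModel [m : MeasurableSpace Ω] (μ : Measure Ω) (ℱ : Filtration ℕ m) (A : ℕ → Set Ω) : Prop :=
  (∀ n, MeasurableSet[ℱ n] (A n)) ∧
  ∀ᵐ ω ∂μ, Tendsto (fun n : ℕ => (μ[(A (n + 1)).indicator (fun _ => (1 : ℝ)) | ℱ n]) ω * Real.log n) atTop (𝓝 1)

/-- The model of Cramér: independent events, `n` is chosen with probability `1 / log n` for `n ≥ 3`. -/
def CramerModel [MeasurableSpace Ω] (μ : Measure Ω) (A : ℕ → Set Ω) : Prop :=
  (∀ n, MeasurableSet (A n)) ∧ iIndepSet A μ ∧ ∀ n : ℕ, 3 ≤ n → μ (A n) = ENNReal.ofReal (1 / Real.log n)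

open Classical in
/-- The random sieve of Hawkins: `2` is chosen, and given the decisions up to `n ≥ 2` the number
`n + 1` is chosen with probability `∏ (1 - 1 / h)`, the product over the chosen `2 ≤ h ≤ n`. -/
def HawkinsSieve [m : MeasurableSpace Ω] (μ : Measure Ω) (ℱ : Filtration ℕ m) (A : ℕ → Set Ω) : Prop :=
  (∀ n, MeasurableSet[ℱ n] (A n)) ∧ A 2 = univ ∧
  ∀ n, 2 ≤ n → μ[(A (n + 1)).indicator (fun _ => (1 : ℝ)) | ℱ n] =ᵐ[μ]
    fun ω => ∏ h ∈ Finset.Icc 2 n, if ω ∈ A h then 1 - 1 / (h : ℝ) else 1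

/-- the largest difference of consecutive elements of `S`, the first one at most `x` -/
noncomputable def maxGap (S : Set ℕ) (x : ℝ) : ℕ :=
  sSup {g | ∃ p ∈ S, (p : ℝ) ≤ x ∧ p + g ∈ S ∧ 0 < g ∧ ∀ r, 0 < r → r < g → p + r ∉ S}

open Pool.Agent.N740.HK Pool.Agent.R528.RM Pool.Agent.N853.SM

lemma prod_inv (A : ℕ → Set Ω) (n : ℕ) (ω : Ω) [DecidablePred fun h => ω ∈ A h] :
    (∏ h ∈ Finset.Icc 2 n, if ω ∈ A h then 1 - 1 / (h : ℝ) else 1) = (Y A n ω)⁻¹ := by
  unfold Y
  rw [← Finset.prod_inv_distrib]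
  refine Finset.prod_congr rfl fun h hh => ?_
  have h2 : (2 : ℝ) ≤ h := by exact_mod_cast (Finset.mem_Icc.1 hh).1
  by_cases hA : ω ∈ A h
  · rw [if_pos hA, if_pos hA, inv_div]
    field_simp
  · rw [if_neg hA, if_neg hA, inv_one]

lemma log_ratio : Tendsto (fun n : ℕ => (Real.log ((n + 1 : ℕ) : ℝ))⁻¹ * Real.log n) atTop (𝓝 1) := by
  have h1 : Tendsto (fun n : ℕ => Real.log ((n : ℝ) + 1) - Real.log n) atTop (𝓝 0) := by
    have h1 : Tendsto (fun n : ℕ => 1 + (1 : ℝ) / n) atTop (𝓝 (1 + 0)) :=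
      tendsto_const_nhds.add tendsto_one_div_atTop_nhds_zero_nat
    rw [add_zero] at h1
    have h2 := (Real.continuousAt_log (one_ne_zero)).tendsto.comp h1
    rw [Real.log_one] at h2
    refine h2.congr' ?_
    filter_upwards [eventually_gt_atTop 0] with n hn
    have hn' : (0 : ℝ) < n := by exact_mod_cast hn
    show Real.log (1 + 1 / (n : ℝ)) = _
    rw [← Real.log_div (by positivity) hn'.ne']
    congr 1
    field_simp
  have h2 : Tendsto (fun n : ℕ => Real.log ((n : ℝ) + 1)) atTop atTop :=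
    Real.tendsto_log_atTop.comp (tendsto_atTop_add_const_right _ _ tendsto_natCast_atTop_atTop)
  have h3 := h1.div_atTop h2
  have h4 : Tendsto (fun n : ℕ => 1 - (Real.log ((n : ℝ) + 1) - Real.log n) / Real.log ((n : ℝ) + 1)) atTop (𝓝 (1 - 0)) :=
    tendsto_const_nhds.sub h3
  rw [sub_zero] at h4
  refine h4.congr' ?_
  filter_upwards [h2.eventually_gt_atTop 0] with n hn
  push_cast
  field_simp
  ring

end Pool.Agent.Results.MP_7b323f_nt.SequentialModels

open Pool.Agent.Results.MP_7b323f_nt.SequentialModels Pool.Agent.N740.HK Pool.Agent.R528.RM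
  Pool.Agent.N853.SM

/-- The random sieve of Hawkins is a sequential model, the model of Cramér is one for some filtration,
and every sequential model has density `(log n) ^ (-1 + o(1))`.  If almost surely the conditional
probabilities lie between `(log n) ^ (-b - o(1))` and `(log n) ^ (-a + o(1))`, where `0 < a ≤ b`,
then almost surely infinitely many integers are chosen and the largest difference `G(x)` of
consecutive chosen integers, the first one at most `x`, satisfies
`(log x) ^ (1 + a - ε) ≤ G(x) ≤ (log x) ^ (1 + b + ε)` for every `ε > 0` and all large `x`; for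
`a = b = κ` therefore `log G(x) / log log x → 1 + κ`. -/
theorem Pool.Agent.Results.MP_7b323f_nt.SequentialModels.result
    {Ω : Type} [m : MeasurableSpace Ω] (μ : Measure Ω) [IsProbabilityMeasure μ] (A : ℕ → Set Ω) :
    (CramerModel μ A → ∃ ℱ : Filtration ℕ m, SequentialModel μ ℱ A) ∧
    ∀ ℱ : Filtration ℕ m,
    (HawkinsSieve μ ℱ A → SequentialModel μ ℱ A) ∧
    (SequentialModel μ ℱ A → ExponentModel μ ℱ A 1 1) ∧
    (∀ a b : ℝ, 0 < a → a ≤ b → ExponentModel μ ℱ A a b →
      ∀ᵐ ω ∂μ, {n | ω ∈ A n}.Infinite ∧ ∀ ε : ℝ, 0 < ε → ∀ᶠ x : ℝ in atTop,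
        Real.log x ^ (1 + a - ε) ≤ maxGap {n | ω ∈ A n} x ∧
        (maxGap {n | ω ∈ A n} x : ℝ) ≤ Real.log x ^ (1 + b + ε)) ∧
    ∀ κ : ℝ, 0 < κ → ExponentModel μ ℱ A κ κ →
      ∀ᵐ ω ∂μ, Tendsto (fun x : ℝ => Real.log (maxGap {n | ω ∈ A n} x) / Real.log (Real.log x))
        atTop (𝓝 (1 + κ)) := by
  classical
  refine ⟨?_, fun ℱ => ⟨?_, ?_, ?_, ?_⟩⟩
  · rintro ⟨hA, hi, hp⟩
    refine ⟨gen hA, gen_meas hA, ?_⟩
    have h1 : ∀ᵐ ω ∂μ, ∀ n, (μ[(A (n + 1)).indicator (fun _ => (1 : ℝ)) | gen hA n]) ω =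
        (μ (A (n + 1))).toReal := ae_all_iff.2 fun n => dens_gen hA hi n
    filter_upwards [h1] with ω hω
    refine log_ratio.congr' ?_
    filter_upwards [eventually_ge_atTop 2] with n hn
    rw [hω, hp (n + 1) (by omega), ENNReal.toReal_ofReal, one_div]
    have : 0 ≤ Real.log ((n + 1 : ℕ) : ℝ) := Real.log_natCast_nonneg _
    positivity
  · rintro ⟨h1, h2, h3⟩
    have hs : Pool.Agent.N740.HK.HS μ ℱ A := ⟨h1, h2, fun n hn => by
      filter_upwards [h3 n hn] with ω hω
      rw [← prod_inv]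
      exact hω⟩
    exact ⟨h1, Pool.Agent.N740.HK.hawk_dens hs⟩
  · rintro ⟨h1, h2⟩
    refine ⟨h1, ?_⟩
    filter_upwards [h2] with ω hω
    intro δ hδ
    have t1 : ∀ᶠ n : ℕ in atTop, (2 : ℝ) ≤ Real.log n ^ δ :=
      ((tendsto_rpow_atTop hδ).comp tendsto_logN').eventually_ge_atTop _
    filter_upwards [hω.eventually_const_le (show (1 / 2 : ℝ) < 1 by norm_num),
      hω.eventually_le_const (show (1 : ℝ) < 2 by norm_num), t1,
      tendsto_logN'.eventually_gt_atTop 0] with n g1 g2 g3 g4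
    have e1 : Real.log n ^ (-1 - δ) = (Real.log n ^ δ)⁻¹ / Real.log n := by
      rw [show -1 - δ = -δ + -1 by ring, Real.rpow_add g4, Real.rpow_neg g4.le, Real.rpow_neg_one]
      rfl
    have e2 : Real.log n ^ (-1 + δ) = Real.log n ^ δ / Real.log n := by
      rw [show -1 + δ = δ + -1 by ring, Real.rpow_add g4, Real.rpow_neg_one]
      rfl
    have e3 : (Real.log n ^ δ)⁻¹ ≤ 1 / 2 := by
      rw [inv_le_comm₀ (by positivity) (by norm_num)]
      linarith
    constructor
    · rw [e1, div_le_iff₀ g4]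
      linarith
    · rw [e2, le_div_iff₀ g4]
      linarith
  · rintro a b ha hab ⟨h1, h2⟩
    have hr : Rg μ ℱ A a b := h2
    filter_upwards [up_ae' h1 (ha.le.trans hab) hr, low_ae' h1 ha hab hr] with ω g1 g2
    exact ⟨g1.infinite, fun ε hε => mg_law ha (ha.le.trans hab) g1 g2 hε⟩
  · rintro κ hκ ⟨h1, h2⟩
    have hr : Rg μ ℱ A κ κ := h2
    filter_upwards [up_ae' h1 hκ.le hr, low_ae' h1 hκ le_rfl hr] with ω g1 g2
    exact mg_tendsto hκ g1 g2
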